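import Pool.Agent.W192.CY.Stneb
import Pool.Agent.W45.CYK.AFE

/-!
# CYN-AFE : the central value of the twisted L-function, nebentypus
-/

set_option autoImplicit false

open Complex Filter Topology Set UpperHalfPlane MatrixGroups CongruenceSubgroup ZMod

namespace Pool.Agent.W930.CY

open Pool.Agent.W108.TW
open Pool.Agent.W440.TW
open Pool.Agent.W192.CY (Vk cf NNewf N_TWIST N_EUL N_AFE)

lemma cf_zero {N : ℕ} {k : ℤ} (f : CuspForm (Gamma1 N : Subgroup (GL (Fin 2) ℝ)) k) :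
    cf f 0 = 0 := by
  have h1 : (1 : ℝ) ∈ (Gamma1 N : Subgroup (GL (Fin 2) ℝ)).strictPeriods := by simp
  exact CuspFormClass.qExpansion_coeff_zero (Γ := (Gamma1 N : Subgroup (GL (Fin 2) ℝ)))
    (k := k) f one_pos h1

theorem n_afe (h1 : N_TWIST) (h2 : N_EUL) : N_AFE := by
  intro m hm N _ η f w hf q _ χ hco hpr
  have hNn : 0 < N := Nat.pos_of_ne_zero (NeZero.ne N)
  have hN : (0 : ℝ) < N := by exact_mod_cast hNn
  have hq : (0 : ℝ) < q := by exact_mod_cast Nat.pos_of_ne_zero (NeZero.ne q)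
  have hsN : 0 < Real.sqrt N := Real.sqrt_pos.2 hN
  have hsum0 : ∀ s : ℂ, (m : ℝ) + 1 / 2 < s.re →
      Summable (fun n : ℕ => ‖χ (n : ZMod q) * cf f n * (n : ℂ) ^ (-s)‖) :=
    fun s hs => (h2 m hm N η f w hf q χ s hs).1
  -- the coefficient bound
  obtain ⟨C, hC⟩ : ∃ C : ℝ, ∀ n : ℕ, 1 ≤ n →
      ‖χ (n : ZMod q) * cf f n‖ ≤ C * (n : ℝ) ^ ((m : ℝ) + 1) := by
    have hs := hsum0 (((m : ℝ) + 1 : ℝ) : ℂ) (by rw [Complex.ofReal_re]; linarith)
    refine ⟨∑' n : ℕ, ‖χ (n : ZMod q) * cf f n * (n : ℂ) ^ (-((((m : ℝ) + 1 : ℝ) : ℂ)))‖,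
      fun n hn => ?_⟩
    have hn' : (0 : ℝ) < n := by exact_mod_cast hn
    have h3 := hs.le_tsum n (fun j _ => norm_nonneg _)
    have h4 : ‖(n : ℂ) ^ (-((((m : ℝ) + 1 : ℝ) : ℂ)))‖ = (n : ℝ) ^ (-((m : ℝ) + 1)) := by
      have := Complex.norm_cpow_eq_rpow_re_of_pos hn' (-((((m : ℝ) + 1 : ℝ) : ℂ)))
      rw [Complex.ofReal_natCast] at this
      rw [this, Complex.neg_re, Complex.ofReal_re]
    rw [norm_mul, h4] at h3
    have h5 : (n : ℝ) ^ (-((m : ℝ) + 1)) * (n : ℝ) ^ ((m : ℝ) + 1) = 1 := by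
      rw [← Real.rpow_add hn', neg_add_cancel, Real.rpow_zero]
    calc ‖χ (n : ZMod q) * cf f n‖
        = ‖χ (n : ZMod q) * cf f n‖ * (n : ℝ) ^ (-((m : ℝ) + 1)) * (n : ℝ) ^ ((m : ℝ) + 1) := by
          rw [mul_assoc, h5, mul_one]
      _ ≤ _ := mul_le_mul_of_nonneg_right h3 (by positivity)
  set R : ℝ := Real.sqrt N * q with hR
  have hRp : 0 < R := by positivity
  set W : ℂ := (w * η (q : ZMod N)) * χ (N : ZMod q) * gaussSum χ (stdAddChar (N := q)) ^ 2 / q
    with hW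
  have hW0 : W ≠ 0 := by
    have g1 : w ≠ 0 := by
      intro h
      have := hf.norm
      rw [h, norm_zero] at this
      exact zero_ne_one this
    have g1' : η (q : ZMod N) ≠ 0 := by
      have hu : IsUnit (q : ZMod N) := (ZMod.isUnit_iff_coprime q N).2 hco
      exact (hu.map η).ne_zero
    have g2 : χ (N : ZMod q) ≠ 0 := by
      have hu : IsUnit (N : ZMod q) := (ZMod.isUnit_iff_coprime N q).2 hco.symm
      exact (hu.map χ).ne_zero
    have g3 := gauss_ne_zero χ hpr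
    have g4 : (q : ℂ) ≠ 0 := Nat.cast_ne_zero.2 (NeZero.ne q)
    rw [hW]
    exact div_ne_zero (mul_ne_zero (mul_ne_zero (mul_ne_zero g1 g1') g2) (pow_ne_zero 2 g3)) g4
  obtain ⟨F, hFd, hFs, hFc⟩ := Pool.Agent.W45.CYK.mellinK
    (b := fun n => χ (n : ZMod q) * cf f n)
    (m := (m : ℝ) + 1) (C := C) (r := m) hm hRp (by rw [cf_zero f, mul_zero])
    (by positivity) hC hW0
    (fun t ht => by
      have h := h1 m hm N η f w hf q χ hco hpr t ht
      have hz : (t : ℂ) ^ (2 * (m : ℤ)) = (t : ℂ) ^ (2 * m) := by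
        rw [← zpow_natCast]
        congr 1
      calc _ = _ := h
        _ = _ := by rw [hz])
  refine ⟨fun s => F (s - m + 1 / 2), hFd.comp (by fun_prop), fun s hs => ?_,
    fun X Y hX hY hXY => ?_⟩
  · -- continuation of the series
    have key : ∀ s : ℂ, 1 < s.re → F s = ∑' n : ℕ, (χ (n : ZMod q) * cf f n *
        (n : ℂ) ^ (-((m : ℂ) - 1 / 2))) * (n : ℂ) ^ (-s) := by
      have hterm : ∀ (s : ℂ) (n : ℕ), (χ (n : ZMod q) * cf f n *
          (n : ℂ) ^ (-((m : ℂ) - 1 / 2))) * (n : ℂ) ^ (-s) =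
          χ (n : ZMod q) * cf f n * (n : ℂ) ^ (-(s + ((m : ℂ) - 1 / 2))) := by
        intro s n
        rcases Nat.eq_zero_or_pos n with rfl | hn
        · rw [cf_zero f]; simp
        · have hn' : (n : ℂ) ≠ 0 := by exact_mod_cast hn.ne'
          rw [mul_assoc, ← Complex.cpow_add _ _ hn']
          congr 2
          ring
      refine W388.ext_series F hFd (fun n => χ (n : ZMod q) * cf f n *
        (n : ℂ) ^ (-((m : ℂ) - 1 / 2))) ?_ (fun s hs => ?_) ((m : ℝ) + 1 + 2) (fun s hs => ?_)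
      · simp only [cf_zero f, mul_zero, zero_mul]
      · have h3 := hsum0 (s + ((m : ℂ) - 1 / 2)) (by
          have : (s + ((m : ℂ) - 1 / 2)).re = s.re + (m - 1 / 2) := by simp
          rw [this]
          linarith)
        refine h3.congr fun n => ?_
        rw [hterm s n]
      · rw [hFs s hs]
        exact tsum_congr fun n => (hterm s n).symm
    have h3 := key (s - m + 1 / 2) (by
      have : (s - m + 1 / 2 : ℂ).re = s.re - m + 1 / 2 := by simp
      rw [this]
      linarith)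
    show F (s - m + 1 / 2) = _
    rw [h3]
    refine tsum_congr fun n => ?_
    rcases Nat.eq_zero_or_pos n with rfl | hn
    · rw [cf_zero f]; simp
    · have hn' : (n : ℂ) ≠ 0 := by exact_mod_cast hn.ne'
      rw [mul_assoc, ← Complex.cpow_add _ _ hn']
      congr 2
      ring
  · have hXY' : X * Y = R ^ 2 / (4 * Real.pi ^ 2) := by
      rw [hXY, hR, mul_pow, Real.sq_sqrt hN.le]
    show F ((m : ℂ) - m + 1 / 2) = _
    rw [sub_self, zero_add, hFc X Y hX hY hXY']
    have hpw : ∀ n : ℕ, (n : ℂ) ^ m = (n : ℂ) ^ (m - 1) * n := by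
      intro n
      rw [← pow_succ]
      congr 1
      omega
    congr 1
    · refine tsum_congr fun n => ?_
      rcases Nat.eq_zero_or_pos n with rfl | hn
      · rw [cf_zero f]; simp
      · have hn' : (n : ℂ) ≠ 0 := by exact_mod_cast hn.ne'
        rw [hpw n]
        field_simp
    · congr 1
      refine tsum_congr fun n => ?_
      rcases Nat.eq_zero_or_pos n with rfl | hn
      · rw [cf_zero f]; simp
      · have hn' : (n : ℂ) ≠ 0 := by exact_mod_cast hn.ne'
        rw [hpw n, map_mul, map_div₀, map_pow, Complex.conj_natCast]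
        field_simp

end Pool.Agent.W930.CY
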